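import Mathlib
import Pool.Agent.X240.DG.XO

/-!
# OMV over the field with two elements: formulas with determinant gates

The decision version of OMV over `ZMod 2`: given an `n × n` matrix `M` and `n` pairs `(u_i, v_i)` of
vectors, is some product `u_iᵀ M v_i` equal to one? The items of the input are the matrix and the
pairs.

A formula (`Fml`) is built from real constants, arbitrary real functions of one item (so everything
that can be computed from the matrix alone is free), and arbitrary real functions of `w` words of `c`
bits, where each word is an arbitrary function of one item, by the gates

* `pos`: is the value positive? (`1` or `0`),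
* `sym`: any fan-in, any real function of the number of positive inputs (so also parity),
* `det`: the determinant of a real matrix of any order whose entries are formulas (sums and products
  are determinants of order two),
* `reg`: is the matrix over an arbitrary field `K` (for instance the field with two elements), of any
  order, whose entry `(a, b)` is `c' a b` or `c a b`, according to whether the formula `(a, b)` is
  positive or not, regular? (`1` or `0`).

The size is the number of the leaves which are not constants, plus the number of wires which lead to
gates `sym`. So constants and the orders of the matrices are free. The formula accepts if its value is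
positive.

We show for `n ≥ 32` that random formulas of size at most `s` with error probability at most `1 / 3`
need `n ^ 4 ≤ 360000 w ^ 2 (31 log₂ n + c w) s ^ 2`, that is, size of the order `n ^ 2 / √(log n)` for
bounded `w` and words of length `c = O(log n)` (there are only `n + 1` items).

Proof. Each pair can ask for each of the `n ^ 2` entries of the matrix, by two unit vectors. If `r`
leaves see this pair, then the other parts of the formula enter a determinant with `r` live entries
only through `O (r ^ 2)` numbers (Schur complement), so `2 ^ O (r ^ 2 log n)` functions of the pair
arise when the other items are fixed: Warren's theorem for the sign tests, and the theorem of Rónyai,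
Babai and Ganapathy on zero patterns for the fields `K` (`Pool.Agent.Y649.DG.bound`).
-/

set_option autoImplicit false

namespace Pool.Agent.Results.MP_0f1f76_lc.DeterminantGates

open Pool.Agent.TH697.Form (IsProb)
open Pool.Agent.TH697.Row (ApproximatesOn)
open Pool.Agent.Y638.RF.Xor (Item product)
open Pool.Agent.Y649.DG (Fml)

theorem result : ∀ n c w : ℕ, 32 ≤ n → 1 ≤ w →
    ∀ (Ω : Type) [Fintype Ω] (μ : Ω → ℝ), IsProb μ →
      ∀ (s : ℕ) (F : Ω → Fml (Option (Fin n)) (Item n) w (2 ^ c)),
        (∀ ω, (F ω).size ≤ s) →
        ApproximatesOn μ (fun ω => (F ω).accepts) (fun _ => True) (product n) →
        (n : ℝ) ^ 4 ≤ 360000 * w ^ 2 * (31 * Real.logb 2 n + c * w) * s ^ 2 :=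
  fun _ _ _ hn hw _ _ μ hμ s F hs hF => Pool.Agent.X240.DG.XO.det_bound hn hw μ hμ s F hs hF

end Pool.Agent.Results.MP_0f1f76_lc.DeterminantGates
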