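import Pool.Agent.X282.Shr.Build
import Pool.Agent.TH272.Shr.Heavy
import Pool.Agent.TH272.Shr.ZeroSumDefs
import Pool.Agent.Y638.RF.Xor

/-!
# OMV over the field with two elements: circuits in which shared gates depend on few vectors

The decision version of OMV over `ZMod 2`: given an `n × n` matrix `M` and `n` pairs `(u_i, v_i)` of
vectors, is some product `u_iᵀ M v_i` equal to one? The items of the input are the matrix and the
pairs.

A circuit over the full binary basis (so parity gates are free to use) is written as a sequence of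
formulas, one for each gate whose value is used more than once (a shared gate) and one for the output.
The leaves are tests of the input: arbitrary Boolean functions of `w` words of `c` bits, where each
word is an arbitrary function of one item. So everything that can be computed from the matrix alone
(preprocessing), or from one pair of vectors alone, may be read in words of `c` bits. There may be any
number of shared gates and references to them. A shared gate is heavy (for `d`) if it depends,
directly or by other shared gates, on more than `d` of the pairs; its dependence on the matrix does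
not matter.

* For random circuits with error probability at most `1 / 3`, and for all `d`:
  `n ^ 3 ≤ 100 c w ^ 2 leaves + 100 (d (references + shared gates) + n (references to heavy gates +
  heavy gates))` (expected numbers). In particular, if no shared gate depends on more than
  one pair (as in an algorithm which does not use what it has computed for the earlier vectors), then
  `n ^ 3 ≤ 100 (c w ^ 2 leaves + references + shared gates)`.
* Conversely, formulas with `n ^ 2 (n / c + 1)` leaves are enough, with two words in each test.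
-/

set_option autoImplicit false

namespace Pool.Agent.Results.MP_0f1f76_lc.LocalSharing

open Finset
open Pool.Agent.TH697.Form (IsProb)
open Pool.Agent.TH697.Row (ApproximatesOn)
open Pool.Agent.Y638.RF.Xor (Item product)
open Pool.Agent.TH272.Shr (Circuit mean)
open Pool.Agent.TH272.Shr.ZeroSum (numbers)

theorem queries {n : ℕ} (i : Fin n) : Pool.Agent.TH457.Ary.Queries (Fin n × Fin n) id
    (fun _ => True) (product n) (some i) :=
  Pool.Agent.TH457.Ary.queries_of_update (fun _ => True) (product n) (some i) (fun _ => 0)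
    (fun t _ => Pool.Agent.Y638.RF.Xor.ask t) Pool.Agent.Y638.RF.Xor.enc (fun _ _ _ _ => rfl)
    (fun _ _ => trivial) (fun t z => Pool.Agent.Y638.RF.Xor.product_enc i t z)

/-- the test for a part of the `j`-th row -/
noncomputable def part (n c : ℕ) (i j : Fin n) (a : ℕ) :
    Pool.Agent.TH457.Ary.Test (Option (Fin n)) (Item n) 2 (2 ^ (c + 1)) where
  item := ![some i, none]
  view := fun k => match k with
    | ⟨0, _⟩ => fun (v : (Fin n → ZMod 2) × (Fin n → ZMod 2)) =>
        Pool.Agent.Y638.RF.Xor.code c (v.1 j, Pool.Agent.Y638.RF.Xor.cut c v.2 a)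
    | ⟨1, _⟩ => fun (M : Fin n → Fin n → ZMod 2) =>
        Pool.Agent.Y638.RF.Xor.code c (1, Pool.Agent.Y638.RF.Xor.cut c (M j) a)
  out := fun e => decide (((Pool.Agent.Y638.RF.Xor.code c).symm (e 0)).1 *
    ∑ l, ((Pool.Agent.Y638.RF.Xor.code c).symm (e 1)).2 l *
      ((Pool.Agent.Y638.RF.Xor.code c).symm (e 0)).2 l = 1)

theorem part_eval {n c : ℕ} (i j : Fin n) (a : ℕ) (x : ∀ i, Item n i) :
    (part n c i j a).eval x = decide ((x (some i)).1 j *
      ∑ l, Pool.Agent.Y638.RF.Xor.cut c (x none j) a l *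
        Pool.Agent.Y638.RF.Xor.cut c (x (some i)).2 a l = 1) := by
  have e0 : ∀ v : ZMod 2 × (Fin c → ZMod 2), (Pool.Agent.Y638.RF.Xor.code c).symm
      (Pool.Agent.Y638.RF.Xor.code c v) = v :=
    fun v => (Pool.Agent.Y638.RF.Xor.code c).symm_apply_apply v
  have e1 : (part n c i j a).eval x = decide (((Pool.Agent.Y638.RF.Xor.code c).symm
      (Pool.Agent.Y638.RF.Xor.code c ((x (some i)).1 j,
      Pool.Agent.Y638.RF.Xor.cut c (x (some i)).2 a))).1 *
    ∑ l, ((Pool.Agent.Y638.RF.Xor.code c).symm (Pool.Agent.Y638.RF.Xor.code c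
        (1, Pool.Agent.Y638.RF.Xor.cut c (x none j) a))).2 l *
      ((Pool.Agent.Y638.RF.Xor.code c).symm (Pool.Agent.Y638.RF.Xor.code c ((x (some i)).1 j,
        Pool.Agent.Y638.RF.Xor.cut c (x (some i)).2 a))).2 l = 1) :=
    rfl
  rw [e1, e0, e0]

theorem upper {n c : ℕ} (hn : 1 ≤ n) (hc : 1 ≤ c) :
    ∃ F : Pool.Agent.TH457.Ary.Fml (Option (Fin n)) (Item n) 2 (2 ^ (c + 1)),
      F.size = n ^ 2 * (n / c + 1) ∧ ∀ x, F.eval x = product n x := by
  classical
  obtain ⟨n', rfl⟩ : ∃ n', n = n' + 1 := ⟨n - 1, by omega⟩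
  obtain ⟨N, hN⟩ : ∃ N, (n' + 1) * ((n' + 1) / c + 1) = N + 1 := by
    refine ⟨(n' + 1) * ((n' + 1) / c + 1) - 1, ?_⟩
    have : 1 ≤ (n' + 1) * ((n' + 1) / c + 1) := Nat.succ_le_of_lt (by positivity)
    omega
  obtain ⟨e, -⟩ : ∃ e : Fin (N + 1) ≃ Fin (n' + 1) × Fin ((n' + 1) / c + 1), True :=
    ⟨(finCongr hN.symm).trans finProdFinEquiv.symm, trivial⟩
  have hx : ∀ i : Fin (n' + 1), ∃ G : Pool.Agent.TH457.Ary.Fml (Option (Fin (n' + 1)))
      (Item (n' + 1)) 2 (2 ^ (c + 1)), G.size = N + 1 ∧ ∀ x, G.eval x = decide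
        (∑ j, ∑ k, (x (some i)).1 j * (x none) j k * (x (some i)).2 k = 1) := by
    intro i
    obtain ⟨G, h1, h2⟩ := Pool.Agent.X282.Shr.exists_xor N
      (fun p => Pool.Agent.TH457.Ary.Fml.leaf (part (n' + 1) c i (e p).1 (e p).2))
    refine ⟨G, ?_, fun x => ?_⟩
    · rw [h1]
      simp [Pool.Agent.TH457.Ary.Fml.size]
    · rw [h2]
      have h3 : ∑ j : Fin (n' + 1), ∑ k : Fin (n' + 1),
          (x (some i)).1 j * (x none) j k * (x (some i)).2 k =
          ∑ p : Fin (N + 1), (x (some i)).1 (e p).1 *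
            ∑ l, Pool.Agent.Y638.RF.Xor.cut c (x none (e p).1) (e p).2 l *
              Pool.Agent.Y638.RF.Xor.cut c (x (some i)).2 (e p).2 l := by
        rw [Equiv.sum_comp e (fun p : Fin (n' + 1) × Fin ((n' + 1) / c + 1) =>
          (x (some i)).1 p.1 * ∑ l, Pool.Agent.Y638.RF.Xor.cut c (x none p.1) p.2 l *
            Pool.Agent.Y638.RF.Xor.cut c (x (some i)).2 p.2 l), Fintype.sum_prod_type]
        refine sum_congr rfl fun j _ => ?_
        simp only
        rw [← mul_sum, Pool.Agent.Y638.RF.Xor.sum_cut hc, mul_sum]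
        exact sum_congr rfl fun k _ => mul_assoc _ _ _
      rw [h3, Pool.Agent.Y638.RF.Xor.sum_eq_card]
      have h4 : (univ.filter fun p : Fin (N + 1) => (Pool.Agent.TH457.Ary.Fml.leaf
          (part (n' + 1) c i (e p).1 (e p).2)).eval x = true) =
          univ.filter fun p : Fin (N + 1) => (x (some i)).1 (e p).1 *
            ∑ l, Pool.Agent.Y638.RF.Xor.cut c (x none (e p).1) (e p).2 l *
              Pool.Agent.Y638.RF.Xor.cut c (x (some i)).2 (e p).2 l = 1 := by
        ext p
        rw [mem_filter, mem_filter]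
        simp only [Pool.Agent.TH457.Ary.Fml.eval]
        rw [part_eval, decide_eq_true_iff]
      rw [h4]
      obtain ⟨M, hM⟩ : ∃ M, M = (univ.filter fun p : Fin (N + 1) => (x (some i)).1 (e p).1 *
            ∑ l, Pool.Agent.Y638.RF.Xor.cut c (x none (e p).1) (e p).2 l *
              Pool.Agent.Y638.RF.Xor.cut c (x (some i)).2 (e p).2 l = 1).card := ⟨_, rfl⟩
      rw [← hM]
      have h5 : (M : ZMod 2) = 1 ↔ M % 2 = 1 := by
        have := ZMod.natCast_eq_natCast_iff' M 1 2
        simpa using this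
      exact decide_eq_decide.2 h5.symm
  choose G hG1 hG2 using hx
  obtain ⟨F, h1, h2⟩ := Pool.Agent.X282.Shr.exists_or n' G
  refine ⟨F, ?_, fun x => ?_⟩
  · rw [h1]
    simp only [hG1, sum_const, card_univ, Fintype.card_fin, smul_eq_mul]
    rw [← hN]
    ring
  · rw [h2]
    unfold product
    simp only [hG2, decide_eq_true_eq]

theorem result :
    (∀ n c w d : ℕ, 5 ≤ n → 1 ≤ c → 1 ≤ w → ∀ (Ω : Type) [Fintype Ω] (μ : Ω → ℝ), IsProb μ →
      ∀ C : Ω → Circuit (Option (Fin n)) (Item n) w (2 ^ c),
        ApproximatesOn μ (fun ω => (C ω).eval) (fun _ => True) (product n) →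
          (n : ℝ) ^ 3 ≤ 100 * c * w ^ 2 * mean μ (fun ω => (C ω).leaves) +
            100 * (d * (mean μ (fun ω => (C ω).refs) + mean μ (fun ω => (C ω).shared)) +
            n * (mean μ (fun ω => (C ω).heavyRefs (numbers n) d) +
              mean μ (fun ω => (C ω).heavyGates (numbers n) d)))) ∧
    (∀ n c : ℕ, 1 ≤ n → 1 ≤ c → ∃ C : Circuit (Option (Fin n)) (Item n) 2 (2 ^ (c + 1)),
      (∀ x, C.eval x = product n x) ∧ C.shared = 0 ∧ C.refs = 0 ∧
        C.leaves = n ^ 2 * (n / c + 1)) := by
  refine ⟨?_, fun n c hn hc => ?_⟩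
  · intro n c w d hn hc hw Ω _ μ hμ C hC
    classical
    have h := Pool.Agent.TH272.Shr.circuit_heavy μ hμ C (fun _ => True) (product n) hC
      Nat.one_le_two_pow hw (numbers n) d (T := Fin n × Fin n) (by
        intro a ha
        rw [numbers, mem_map] at ha
        obtain ⟨i, -, rfl⟩ := ha
        exact queries i)
    have hcd : (numbers n).card = n := by rw [numbers, card_map, card_univ, Fintype.card_fin]
    rw [hcd, Pool.Agent.TH457.Ary.OuMv.card_T] at h
    push_cast at h
    rw [Pool.Agent.TH457.Ary.OuMv.logb_two_pow'] at h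
    have hn' : (5 : ℝ) ≤ n := by exact_mod_cast hn
    have hc' : (1 : ℝ) ≤ c := by exact_mod_cast hc
    have hw' : (1 : ℝ) ≤ w := by exact_mod_cast hw
    have hE : 0 ≤ mean μ (fun ω => (C ω).leaves) := Pool.Agent.TH272.Shr.mean_nonneg μ hμ _
    obtain ⟨X, hX⟩ : ∃ X : ℝ, X = d * (mean μ (fun ω => (C ω).refs) +
      mean μ (fun ω => (C ω).shared)) + n * (mean μ (fun ω => (C ω).heavyRefs (numbers n) d) +
              mean μ (fun ω => (C ω).heavyGates (numbers n) d)) := ⟨_, rfl⟩
    rw [← hX] at h ⊢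
    have h1 : (n : ℝ) ^ 2 / 25 ≤ 49 / 600 * (n : ℝ) ^ 2 - 1 := by nlinarith
    have h2 : (n : ℝ) * ((n : ℝ) ^ 2 / 25) ≤ n * (49 / 600 * (n : ℝ) ^ 2 - 1) :=
      mul_le_mul_of_nonneg_left h1 (by linarith)
    have h3 : (w : ℝ) * (4 + (w - 1) * c) ≤ 4 * c * w ^ 2 := by
      have h0 : 0 ≤ ((w : ℝ) - 1) * c := mul_nonneg (by linarith) (by linarith)
      have h4 : 4 + ((w : ℝ) - 1) * c ≤ 4 * c * w := by nlinarith
      calc (w : ℝ) * (4 + (w - 1) * c) ≤ w * (4 * c * w) :=
            mul_le_mul_of_nonneg_left h4 (by linarith)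
        _ = _ := by ring
    have h4 := mul_le_mul_of_nonneg_right h3 hE
    linarith
  · obtain ⟨F, h1, h2⟩ := upper hn hc
    obtain ⟨C, c1, c2, c3, c4⟩ := Pool.Agent.X282.Shr.exists_circuit F
    exact ⟨C, fun x => (c1 x).trans (h2 x), c2, c3, c4.trans h1⟩

end Pool.Agent.Results.MP_0f1f76_lc.LocalSharing
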