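import Mathlib
import Pool.Agent.X240.DG.XO

/-!
# OMV over the field with two elements: nondeterministic networks which test real formulas

The decision version of OMV over `ZMod 2`: given an `n × n` matrix `M` and `n` pairs `(u_i, v_i)` of
vectors, is some product `u_iᵀ M v_i` equal to one? The items of the input are the matrix and the
pairs.

A real formula (`Fml`) is built from real constants, arbitrary real functions of one item (so
everything that can be computed from the matrix alone is free, with unlimited precision), and
arbitrary real functions of `w` words of `c` bits, where each word is an arbitrary function of one
item, by sums, products, sign tests `pos`, and gates `sym` of any fan-in whose value is an arbitrary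
real function of the number of positive inputs. A network (`Net`) is a nondeterministic branching
program, possibly with cycles: nodes, free edges, and edges which are guarded by real formulas; it
accepts if some path leads from the start node to the end node over edges which are open. Its size is
the number of guarded edges plus the sizes of their formulas; nodes and free edges are not counted.

We show for `n ≥ 32` that random networks (Arthur-Merlin type: first the random choice, then the
guesses) of size at most `s` which accept the inputs with a product one, or which accept the inputs
without a product one, with error probability at most `1 / 3`, need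
`n ^ 3 ≤ 4000 w (n + 61 log₂ n + 2 c w) s`, that is, size at least of the order `n ^ 2` if `w c` is at
most of the order `n` (there are only `n + 1` items).

Proof. Each pair can ask for each of the `n ^ 2` entries of the matrix, by two unit vectors. If a
network has `r` leaves which see this pair, then the reachability between the end points of the `r`
edges gives `2 ^ O (r ^ 2)` possibilities, and the formulas on these edges take few different functions
of the pair when the other items are fixed (Warren's bound, `Pool.Agent.Y638.RF.Core`). So `r` is at
least of the order `n` for each of the `n` pairs.
-/

set_option autoImplicit false

namespace Pool.Agent.Results.MP_0f1f76_lc.RealNetworks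

open Pool.Agent.TH697.Form (IsProb)
open Pool.Agent.TH697.Row (ApproximatesOn)
open Pool.Agent.Y638.RF (Net)
open Pool.Agent.Y638.RF.Xor (Item product)

theorem result : ∀ n c w : ℕ, 32 ≤ n → 1 ≤ w →
    ∀ (Ω : Type) [Fintype Ω] (μ : Ω → ℝ), IsProb μ →
      ∀ (s : ℕ) (N : Ω → Net (Option (Fin n)) (Item n) w (2 ^ c)),
        (∀ ω, (N ω).size ≤ s) →
        (ApproximatesOn μ (fun ω => (N ω).eval) (fun _ => True) (product n) ∨
          ApproximatesOn μ (fun ω x => !(N ω).eval x) (fun _ => True) (product n)) →
        (n : ℝ) ^ 3 ≤ 4000 * w * (n + 61 * Real.logb 2 n + 2 * c * w) * s :=
  fun _ _ _ hn hw _ _ μ hμ s N hs hN => Pool.Agent.X240.DG.XO.net_bound hn hw μ hμ s N hs hN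

end Pool.Agent.Results.MP_0f1f76_lc.RealNetworks
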