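import Mathlib
import Pool.Agent.X240.WF.Xor

/-!
# OMv over `ZMod 2`: branching programs which test arithmetic (min, max) formulas over machine words

The decision version of OMv over `ZMod 2`: given an `n × n` matrix `M` and `n` pairs `(u_i, v_i)` of
vectors over `ZMod 2`, is some product `u_iᵀ M v_i` equal to one? The items of the input are the matrix
and the pairs.

The formulas (`Fml`) compute with integers: they are built from constants, arbitrary integral
functions of one item, and arbitrary integral functions of `w` words of `c` bits, where each word is an
arbitrary function of one item, by sums, products, maxima, minima, sign tests `pos` (with the values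
`0`, `1`), and gates `sym` of any fan-in whose value is an arbitrary function of the number of positive
inputs (for instance parity); the absolute values of all subformulas are at most `2 ^ v`. A formula
accepts if its value is positive. Its size is the number of leaves (constants are free) plus the
number of wires which lead to gates `sym`. In a branching program (`Program`) every inner node tests
whether a formula accepts; its size is the number of inner nodes plus the sizes of all these
formulas.

We show that random branching programs of size at most `s` with error probability at most `1 / 3`
need `n ^ 3 ≤ 600 w (v + c w + log₂ n) s`. Conversely the maximum over `i` of the parities of the numbers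
`[(u_i)_j * (segment k of row j of M) * (segment k of v_i) = 1]` is a program with one inner node of size
`2 n ^ 2 (⌊n / c⌋ + 1) + 1`, with `w = 2`, words of `c + 1` bits, and numbers in `{0, 1}`; so the
bound is optimal up to a constant factor if `log₂ n ≤ c ≤ n` and `v ≤ c`.

Proof. We count the functions of the pair `(u_i, v_i)` which arise when the other items are fixed
(Nechiporuk's method); this pair can ask for each of the `n ^ 2` entries of the matrix. Between two
leaves which see the pair the other parts of the formula act by a composition of maps `x + c`, `c x`,
`max x c`, `min x c`, and of functions of `[0 < x]`; such a composition is a clamped affine function or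
a function of a threshold test, and its values are numbers of `v` bits, so it is given by `O (v)` bits.
-/

set_option autoImplicit false

namespace Pool.Agent.Results.MP_0f1f76_lc.WordPrograms

open Pool.Agent.TH697.Form (IsProb)
open Pool.Agent.TH697.Row (ApproximatesOn)
open Pool.Agent.Y638.RF.Xor (Item product)
open Pool.Agent.Y638.WF (Program exists_program)

theorem result :
    (∀ n c w v : ℕ, 32 ≤ n → 1 ≤ w →
      ∀ (Ω : Type) [Fintype Ω] (μ : Ω → ℝ), IsProb μ →
        ∀ (s : ℕ)
          (B : Ω → Program (Option (Fin n)) (Item n) w (2 ^ c) (2 ^ v) (fun _ => True) s),
          ApproximatesOn μ (fun ω => (B ω).eval) (fun _ => True) (product n) →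
          (n : ℝ) ^ 3 ≤ 600 * w * (v + c * w + Real.logb 2 n) * s) ∧
    (∀ n c V : ℕ, 1 ≤ c → 1 ≤ V →
      ∃ B : Program (Option (Fin n)) (Item n) 2 (2 ^ (c + 1)) V (fun _ => True)
          (2 * n ^ 2 * (n / c + 1) + 1),
        B.nodes = 1 ∧ ∀ x, B.eval x = product n x) := by
  refine ⟨fun n _ _ _ hn hw _ _ μ hμ s B hB =>
    Pool.Agent.X240.WF.omv_bound hn hw (product n)
      (fun i => Pool.Agent.Y638.RF.Xor.asks i) μ hμ s B hB, fun n c V hc hV => ?_⟩
  obtain ⟨F, h1, h2, h3⟩ := Pool.Agent.X240.WF.Xor.upper (n := n) V hV hc
  obtain ⟨B, h4, h5⟩ := exists_program F h2 (2 * n ^ 2 * (n / c + 1) + 1) (by omega)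
  exact ⟨B, h4, fun x => (h5 x).trans (h3 x)⟩

end Pool.Agent.Results.MP_0f1f76_lc.WordPrograms
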